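import Mathlib
import Pool.Agent.H759R2.Kad.Props6

open scoped ComplexOrder InnerProductSpace ComplexConjugate
open Finset

noncomputable section

namespace H759R2.Kad

universe u v

theorem prove6_cen : C_cen.{u} := by
  intro H _ _ _ M p q hp hq hqap
  have hpM : p.1 ∈ M := p.2
  have hqM : q.1 ∈ M := q.2
  set K0 : Submodule ℂ H := Submodule.span ℂ {x | ∃ a ∈ M, ∃ ξ : H, x = a (p.1 ξ)} with hK0
  set K : Submodule ℂ H := K0.topologicalClosure with hK
  haveI : CompleteSpace K := K0.isClosed_topologicalClosure.completeSpace_coe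
  have hgen : ∀ a ∈ M, ∀ ξ : H, a (p.1 ξ) ∈ K := fun a ha ξ =>
    K0.le_topologicalClosure (Submodule.subset_span ⟨a, ha, ξ, rfl⟩)
  have key : ∀ (y : H →L[ℂ] H) (L : Submodule ℂ H), IsClosed (L : Set H) →
      (∀ a ∈ M, ∀ ξ, y (a (p.1 ξ)) ∈ L) → ∀ x ∈ K, y x ∈ L := by
    intro y L hL hy x hx
    have h1 : K0 ≤ L.comap (y : H →ₗ[ℂ] H) := by
      rw [hK0, Submodule.span_le]
      rintro _ ⟨a, ha, ξ, rfl⟩
      exact hy a ha ξ
    have h2 : IsClosed ((L.comap (y : H →ₗ[ℂ] H) : Submodule ℂ H) : Set H) := hL.preimage y.continuous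
    exact K0.topologicalClosure_minimal h1 h2 hx
  have hKc : IsClosed (K : Set H) := K0.isClosed_topologicalClosure
  have hrange : (K.starProjection : H →L[ℂ] H).range = K := Submodule.range_starProjection K
  have hr : K.starProjection ∈ M := by
    rw [VonNeumannAlgebra.IsStarProjection.mem_iff (isStarProjection_starProjection)]
    intro y hy
    rw [hrange]
    intro x hx
    rw [VonNeumannAlgebra.mem_commutant_iff] at hy
    apply key y K hKc _ x hx
    intro a ha ξ
    have h1 : y (a (p.1 ξ)) = a (p.1 (y ξ)) := by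
      have e1 := congrArg (fun T : H →L[ℂ] H => T ξ) (hy (a * p.1) (mul_mem ha hpM))
      simpa using e1.symm
    rw [h1]
    exact hgen a ha _
  have hr' : K.starProjection ∈ M.commutant := by
    rw [VonNeumannAlgebra.IsStarProjection.mem_iff (isStarProjection_starProjection)]
    intro y hy
    rw [VonNeumannAlgebra.commutant_commutant] at hy
    rw [hrange]
    intro x hx
    apply key y K hKc _ x hx
    intro a ha ξ
    exact hgen (y * a) (mul_mem hy ha) ξ
  rw [VonNeumannAlgebra.mem_commutant_iff] at hr'
  have hsp : IsStarProjection K.starProjection := isStarProjection_starProjection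
  refine ⟨⟨K.starProjection, hr⟩, ⟨⟨?_, ?_⟩, ?_⟩, ?_, ?_⟩
  · exact Subtype.ext hsp.isSelfAdjoint
  · exact Subtype.ext hsp.isIdempotentElem
  · intro a
    exact Subtype.ext (hr' a.1 a.2).symm
  · apply Subtype.ext
    ext ξ
    have h1 : p.1 ξ ∈ K := by simpa using hgen 1 (one_mem M) ξ
    exact Submodule.starProjection_eq_self_iff.2 h1
  · have h1 : q.1 * K.starProjection = 0 := by
      ext ξ
      have h2 : K.starProjection ξ ∈ K := Submodule.starProjection_apply_mem K ξ
      have h6 := key q.1 ⊥ (by simp) (by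
        intro a ha ξ
        have h3 := congrArg Subtype.val (hqap ⟨a, ha⟩)
        have := congrArg (fun T : H →L[ℂ] H => T ξ) h3
        simpa using this) _ h2
      simpa using h6
    apply Subtype.ext
    have h4 := congrArg star h1
    rw [star_mul, star_zero] at h4
    have h5 : star K.starProjection = K.starProjection := hsp.isSelfAdjoint
    have h6 : star q.1 = q.1 := congrArg Subtype.val hq.1
    rw [h5, h6] at h4
    exact h4

end H759R2.Kad
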