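import Mathlib
import Pool.Agent.H759R2.Kad.Props7

open scoped ComplexOrder InnerProductSpace ComplexConjugate
open Finset

noncomputable section

namespace H759R2.Kad

universe u v

namespace LocR3

theorem clm_one_apply {K : Type v} [NormedAddCommGroup K] [InnerProductSpace ℂ K] (x : K) :
    (1 : K →L[ℂ] K) x = x := rfl

section ops

variable {H : Type v} [NormedAddCommGroup H] [InnerProductSpace ℂ H] [CompleteSpace H]
variable {ι : Type} [Fintype ι] [DecidableEq ι]

/-- diagonal operator -/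
def dg (ι : Type) [Fintype ι] [DecidableEq ι] (T : H →L[ℂ] H) : HH ι H →L[ℂ] HH ι H :=
  opMat fun i j => if i = j then T else 0

omit [CompleteSpace H] in
theorem dg_apply (T : H →L[ℂ] H) (v : HH ι H) (i : ι) : dg ι T v i = T (v i) := by
  rw [dg, opMat_apply, Finset.sum_eq_single i]
  · simp
  · intro j _ hj
    simp [Ne.symm hj]
  · simp

theorem dg_star (T : H →L[ℂ] H) : star (dg ι T) = dg ι (star T) := by
  rw [dg, opMat_star, dg]
  congr 1
  funext i j
  by_cases h : i = j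
  · subst h
    simp
  · simp [h, Ne.symm h]

omit [CompleteSpace H] in
theorem dg_norm (T : H →L[ℂ] H) : ‖dg ι T‖ ≤ ‖T‖ := by
  refine ContinuousLinearMap.opNorm_le_bound _ (norm_nonneg _) fun v => ?_
  refine le_of_sq_le_sq ?_ (by positivity)
  rw [mul_pow, PiLp.norm_sq_eq_of_L2, PiLp.norm_sq_eq_of_L2, Finset.mul_sum]
  refine Finset.sum_le_sum fun i _ => ?_
  rw [dg_apply, ← mul_pow]
  exact pow_le_pow_left₀ (norm_nonneg _) (T.le_opNorm _) 2

/-- matrix unit -/
def mu (i j : ι) : HH ι H →L[ℂ] HH ι H :=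
  opMat fun k l => if k = i ∧ l = j then 1 else 0

omit [CompleteSpace H] in
theorem mu_apply (i j : ι) (v : HH ι H) (k : ι) :
    (mu i j : HH ι H →L[ℂ] HH ι H) v k = if k = i then v j else 0 := by
  rw [mu, opMat_apply, Finset.sum_eq_single j]
  · by_cases h : k = i
    · simp [h]
    · simp [h]
  · intro l _ hl
    simp [hl]
  · simp

theorem mu_star (i j : ι) : star (mu i j : HH ι H →L[ℂ] HH ι H) = mu j i := by
  rw [mu, opMat_star, mu]
  congr 1
  funext k l
  by_cases h : k = j ∧ l = i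
  · simp [h]
  · have h' : ¬ (l = i ∧ k = j) := fun hh => h ⟨hh.2, hh.1⟩
    simp [h, h']

omit [CompleteSpace H] in
theorem mu_mul (i j k : ι) :
    (mu i j : HH ι H →L[ℂ] HH ι H) * mu j k = mu i k := by
  ext v l
  rw [mul_apply_eq_comp, mu_apply, mu_apply, mu_apply, if_pos rfl]

omit [CompleteSpace H] in
theorem sum_mu : ∑ i, (mu i i : HH ι H →L[ℂ] HH ι H) = 1 := by
  ext v l
  rw [_root_.sum_apply]
  simp only [WithLp.ofLp_sum, Finset.sum_apply, mu_apply, clm_one_apply]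
  simp

omit [CompleteSpace H] in
theorem opMat_eq (i0 : ι) (T : ι → ι → (H →L[ℂ] H)) :
    opMat T = ∑ i, ∑ j, (mu i i0 : HH ι H →L[ℂ] HH ι H) * dg ι (T i j) * mu i0 j := by
  ext v l
  rw [opMat_apply]
  simp only [_root_.sum_apply, WithLp.ofLp_sum, Finset.sum_apply, mul_apply_eq_comp, mu_apply, dg_apply,
    if_true]
  symm
  rw [Finset.sum_eq_single l]
  · simp
  · intro i _ hi
    simp [Ne.symm hi]
  · simp

end ops

section colrow

variable {K : Type v} [NormedAddCommGroup K] [InnerProductSpace ℂ K] [CompleteSpace K]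
variable {ι : Type} [Fintype ι]

theorem col_norm (S : ι → (K →L[ℂ] K)) (hS : ∑ i, star (S i) * S i = 1) (y : K) :
    ‖(WithLp.toLp 2 (fun i => S i y) : HH ι K)‖ = ‖y‖ := by
  have h1 : ‖(WithLp.toLp 2 (fun i => S i y) : HH ι K)‖ ^ 2 = ‖y‖ ^ 2 := by
    rw [PiLp.norm_sq_eq_of_L2]
    have h2 : (((∑ i, ‖S i y‖ ^ 2 : ℝ)) : ℂ) = ((‖y‖ ^ 2 : ℝ) : ℂ) := by
      have h3 : ((‖y‖ ^ 2 : ℝ) : ℂ) = ⟪y, (1 : K →L[ℂ] K) y⟫_ℂ := by
        rw [clm_one_apply, inner_self_eq_norm_sq_to_K]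
        push_cast
        rfl
      rw [h3, ← hS, _root_.sum_apply, inner_sum]
      push_cast
      refine Finset.sum_congr rfl fun i _ => ?_
      show _ = ⟪y, (star (S i)) (S i y)⟫_ℂ
      rw [ContinuousLinearMap.star_eq_adjoint,
        ContinuousLinearMap.adjoint_inner_right, inner_self_eq_norm_sq_to_K]
      rfl
    exact_mod_cast h2
  have h4 := congrArg Real.sqrt h1
  rwa [Real.sqrt_sq (norm_nonneg _), Real.sqrt_sq (norm_nonneg _)] at h4

theorem row_norm (S : ι → (K →L[ℂ] K)) (hS : ∑ i, star (S i) * S i = 1) (z : HH ι K) :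
    ‖∑ i, star (S i) (z i)‖ ≤ ‖z‖ := by
  set t : K := ∑ i, star (S i) (z i) with ht
  have h1 : ‖t‖ ^ 2 ≤ ‖t‖ * ‖z‖ := by
    have h2 : ⟪t, t⟫_ℂ = ⟪(WithLp.toLp 2 (fun i => S i t) : HH ι K), z⟫_ℂ := by
      rw [PiLp.inner_apply]
      conv_lhs => rw [ht]
      rw [← ht, inner_sum]
      refine Finset.sum_congr rfl fun i _ => ?_
      rw [ContinuousLinearMap.star_eq_adjoint, ContinuousLinearMap.adjoint_inner_right]
    have h3 : ‖t‖ ^ 2 = ‖⟪t, t⟫_ℂ‖ := by
      rw [inner_self_eq_norm_sq_to_K]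
      simp
    rw [h3, h2]
    refine le_trans (norm_inner_le_norm _ _) ?_
    rw [col_norm S hS]
  by_contra hcon
  push Not at hcon
  have h5 : 0 < ‖t‖ := lt_of_le_of_lt (norm_nonneg _) hcon
  nlinarith

end colrow

end LocR3

open LocR3 in
theorem prove7_loc (h1 : R_state.{v}) (h2 : R_gns.{v}) : R_loc.{u, v} := by
  intro A _ _ _ c K m hc hK hyp H _ _ _ w hw hwc hsa X
  by_cases hd : amp w (Fin m) X = 0
  · rw [hd, norm_zero]
    positivity
  obtain ⟨i0⟩ : Nonempty (Fin m) := by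
    by_contra hne
    rw [not_nonempty_iff] at hne
    apply hd
    ext v i
    exact hne.elim i
  -- the algebra
  set S : Set (HH (Fin m) H →L[ℂ] HH (Fin m) H) := {T | ∃ e, CPrj e ∧ T = dg (Fin m) (w e)} with hS
  set D := StarSubalgebra.centralizer ℂ S with hDdef
  haveI hcl : IsClosed (D : Set (HH (Fin m) H →L[ℂ] HH (Fin m) H)) := by
    rw [hDdef, StarSubalgebra.coe_centralizer]
    exact Set.isClosed_centralizer _
  have hdgmul : ∀ S T : H →L[ℂ] H, dg (Fin m) S * dg (Fin m) T = dg (Fin m) (S * T) := by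
    intro S T
    ext v i
    simp only [mul_apply_eq_comp, dg_apply]
  have hdgone : dg (Fin m) (1 : H →L[ℂ] H) = 1 := by
    ext v i
    simp only [clm_one_apply, dg_apply]
  have hmem : ∀ T, (∀ e, CPrj e → dg (Fin m) (w e) * T = T * dg (Fin m) (w e)) → T ∈ D := by
    intro T hT
    rw [hDdef, StarSubalgebra.mem_centralizer_iff]
    rintro _ ⟨e, he, rfl⟩
    rw [dg_star, hsa e he]
    exact ⟨hT e he, hT e he⟩
  have hcomm : ∀ T ∈ D, ∀ e, CPrj e → dg (Fin m) (w e) * T = T * dg (Fin m) (w e) := by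
    intro T hT e he
    rw [hDdef, StarSubalgebra.mem_centralizer_iff] at hT
    exact (hT _ ⟨e, he, rfl⟩).1
  have hwcomm : ∀ e, CPrj e → ∀ a, w e * w a = w a * w e := by
    intro e he a
    rw [← hw.mul, ← hw.mul, he.2 a]
  have hdgD : ∀ a, dg (Fin m) (w a) ∈ D := by
    intro a
    refine hmem _ fun e he => ?_
    rw [hdgmul, hdgmul, hwcomm e he]
  have hmuD : ∀ i j, (mu i j : HH (Fin m) H →L[ℂ] HH (Fin m) H) ∈ D := by
    intro i j
    refine hmem _ fun e he => ?_
    ext v k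
    simp only [mul_apply_eq_comp, mu_apply, dg_apply]
    by_cases h : k = i
    · simp [h]
    · simp [h]
  have hXD : amp w (Fin m) X ∈ D := by
    refine hmem _ fun e he => ?_
    ext v k
    simp only [mul_apply_eq_comp, amp_apply, dg_apply, map_sum]
    refine Finset.sum_congr rfl fun j _ => ?_
    have := congrArg (fun T : H →L[ℂ] H => T (v j)) (hwcomm e he (X k j))
    simpa only [mul_apply_eq_comp] using this
  set d : D := ⟨amp w (Fin m) X, hXD⟩ with hddef
  have hd0 : d ≠ 0 := fun h => hd (congrArg Subtype.val h)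
  set E : Set D := {f | ∃ e, CPrj e ∧ f.1 = dg (Fin m) (w e)} with hE
  have hEP : ∀ f ∈ E, CPrj f := by
    rintro f ⟨e, he, hf⟩
    refine ⟨⟨?_, ?_⟩, ?_⟩
    · apply Subtype.ext
      show star f.1 = f.1
      rw [hf, dg_star, hsa e he]
    · apply Subtype.ext
      show f.1 * f.1 = f.1
      rw [hf, hdgmul, ← hw.mul, he.1.2]
    · intro a
      apply Subtype.ext
      show f.1 * a.1 = a.1 * f.1
      rw [hf]
      exact hcomm a.1 a.2 e he
  have hone : CPrj (1 : A) := ⟨⟨star_one _, mul_one _⟩, fun a => by rw [one_mul, mul_one]⟩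
  have hE1 : (1 : D) ∈ E := by
    refine ⟨1, hone, ?_⟩
    show (1 : HH (Fin m) H →L[ℂ] HH (Fin m) H) = _
    rw [hw.one, hdgone]
  have hEmul : ∀ e ∈ E, ∀ f ∈ E, e * f ∈ E := by
    rintro f ⟨e, he, hf⟩ f' ⟨e', he', hf'⟩
    refine ⟨e * e', ⟨⟨?_, ?_⟩, ?_⟩, ?_⟩
    · rw [star_mul, he.1.1, he'.1.1, he.2]
    · rw [mul_assoc, ← mul_assoc e' e e', ← he.2 e', mul_assoc e e' e', he'.1.2, ← mul_assoc,
        he.1.2]
    · intro a
      rw [mul_assoc, he'.2 a, ← mul_assoc, he.2 a, mul_assoc]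
    · show f.1 * f'.1 = _
      rw [hf, hf', hdgmul, hw.mul]
  have hEcompl : ∀ e ∈ E, 1 - e ∈ E := by
    rintro f ⟨e, he, hf⟩
    refine ⟨1 - e, ⟨⟨?_, ?_⟩, ?_⟩, ?_⟩
    · rw [star_sub, star_one, he.1.1]
    · rw [sub_mul, one_mul, mul_sub, mul_one, he.1.2, sub_self, sub_zero]
    · intro a
      rw [sub_mul, mul_sub, one_mul, mul_one, he.2 a]
    · show (1 : HH (Fin m) H →L[ℂ] HH (Fin m) H) - f.1 = _
      rw [hf, map_sub, hw.one]
      ext v i
      simp only [sub_apply, clm_one_apply, PiLp.sub_apply, dg_apply]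
  obtain ⟨ψ, hψpos, hψ1, hψd, hψE⟩ := h1 D E hEP hE1 hEmul hEcompl d hd0
  obtain ⟨K', _, _, _, π, Ω, hΩ, hdens⟩ := h2 D ψ hψpos
  have hpin : ∀ a : D, ‖π a‖ ≤ ‖a‖ := fun a => NonUnitalStarAlgHom.norm_apply_le π a
  -- norms of vectors
  have hvec : ∀ a : D, ((‖π a Ω‖ ^ 2 : ℝ) : ℂ) = ψ (star a * a) := by
    intro a
    rw [← hΩ, map_mul, map_star, mul_apply_eq_comp, ContinuousLinearMap.star_eq_adjoint,
      ContinuousLinearMap.adjoint_inner_right, inner_self_eq_norm_sq_to_K]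
    push_cast
    rfl
  have hΩ1 : ‖Ω‖ ^ 2 = 1 := by
    have h := hvec 1
    rw [star_one, mul_one, hψ1, map_one, clm_one_apply] at h
    exact_mod_cast h
  have hzero : ∀ f ∈ E, ψ f = 0 → π f = 0 := by
    intro f hf h0
    have hP := hEP f hf
    have h3 : π f Ω = 0 := by
      have h := hvec f
      rw [hP.1.1, hP.1.2, h0] at h
      have h' : ‖π f Ω‖ ^ 2 = 0 := by exact_mod_cast h
      rw [← norm_eq_zero]
      exact pow_eq_zero_iff (two_ne_zero) |>.1 h'
    have h4 : ∀ a, π f (π a Ω) = 0 := by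
      intro a
      have h5 : π f * π a = π a * π f := by rw [← map_mul, ← map_mul, hP.2 a]
      have h6 := congrArg (fun T : K' →L[ℂ] K' => T Ω) h5
      simp only [mul_apply_eq_comp] at h6
      rw [h6, h3, map_zero]
    ext x
    rw [zero_apply, ← norm_eq_zero]
    by_contra hne
    have hpos : 0 < ‖π f x‖ := lt_of_le_of_ne (norm_nonneg _) (Ne.symm hne)
    obtain ⟨a, ha⟩ := hdens x (‖π f x‖ / (2 * (‖π f‖ + 1))) (by positivity)
    have h7 : π f x = π f (x - π a Ω) := by rw [map_sub, h4, sub_zero]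
    have h8 : ‖π f x‖ ≤ ‖π f‖ * (‖π f x‖ / (2 * (‖π f‖ + 1))) := by
      conv_lhs => rw [h7]
      exact le_trans ((π f).le_opNorm _) (mul_le_mul_of_nonneg_left ha (norm_nonneg _))
    have h9 : ‖π f‖ * (‖π f x‖ / (2 * (‖π f‖ + 1))) ≤ ‖π f x‖ / 2 := by
      rw [← mul_div_assoc, div_le_div_iff₀ (by positivity) (by norm_num)]
      nlinarith [norm_nonneg (π f), norm_nonneg (π f x)]
    linarith
  -- the localised homomorphism
  let w' : A →ₗ[ℂ] (K' →L[ℂ] K') :=
    { toFun := fun a => π ⟨dg (Fin m) (w a), hdgD a⟩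
      map_add' := by
        intro a b
        rw [← map_add]
        congr 1
        apply Subtype.ext
        show dg (Fin m) (w (a + b)) = dg (Fin m) (w a) + dg (Fin m) (w b)
        ext v i
        simp only [dg_apply, map_add, add_apply, PiLp.add_apply]
      map_smul' := by
        intro r a
        rw [RingHom.id_apply, ← map_smul]
        congr 1
        apply Subtype.ext
        show dg (Fin m) (w (r • a)) = r • dg (Fin m) (w a)
        ext v i
        simp only [dg_apply, map_smul, smul_apply, PiLp.smul_apply] }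
  have hw'def : ∀ a, w' a = π ⟨dg (Fin m) (w a), hdgD a⟩ := fun a => rfl
  have hw' : IsHom w' := by
    refine ⟨fun a b => ?_, ?_⟩
    · rw [hw'def, hw'def, hw'def, ← map_mul]
      congr 1
      apply Subtype.ext
      show dg (Fin m) (w (a * b)) = dg (Fin m) (w a) * dg (Fin m) (w b)
      rw [hdgmul, hw.mul]
    · rw [hw'def, ← map_one π]
      congr 1
      apply Subtype.ext
      show dg (Fin m) (w 1) = 1
      rw [hw.one, hdgone]
  have hw'c : ∀ a, ‖w' a‖ ≤ c * ‖a‖ := by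
    intro a
    rw [hw'def]
    refine le_trans (hpin _) (le_trans ?_ (hwc a))
    exact dg_norm (w a)
  have hw'e : ∀ e, CPrj e → w' e = 0 ∨ w' e = 1 := by
    intro e he
    have hf : (⟨dg (Fin m) (w e), hdgD e⟩ : D) ∈ E := ⟨e, he, rfl⟩
    rcases hψE _ hf with h | h
    · left
      rw [hw'def]
      exact hzero _ hf h
    · right
      have h' := hzero _ (hEcompl _ hf) (by rw [map_sub, hψ1, h, sub_self])
      rw [map_sub, map_one, sub_eq_zero] at h'
      rw [hw'def]
      exact h'.symm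
  have hlvl := hyp K' w' hw' hw'c hw'e X
  -- the rows and columns
  let T : Fin m → (K' →L[ℂ] K') := fun i => π ⟨mu i0 i, hmuD i0 i⟩
  have hTstar : ∀ i, star (T i) = π ⟨mu i i0, hmuD i i0⟩ := by
    intro i
    show star (π ⟨mu i0 i, hmuD i0 i⟩) = _
    rw [← map_star]
    congr 1
    apply Subtype.ext
    show star (mu i0 i : HH (Fin m) H →L[ℂ] HH (Fin m) H) = mu i i0
    exact mu_star _ _
  have hTsum : ∑ i, star (T i) * T i = 1 := by
    have h3 : ∀ i, star (T i) * T i = π ⟨mu i i, hmuD i i⟩ := by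
      intro i
      rw [hTstar]
      show π ⟨mu i i0, hmuD i i0⟩ * π ⟨mu i0 i, hmuD i0 i⟩ = _
      rw [← map_mul]
      congr 1
      apply Subtype.ext
      show (mu i i0 : HH (Fin m) H →L[ℂ] HH (Fin m) H) * mu i0 i = mu i i
      exact mu_mul _ _ _
    rw [Finset.sum_congr rfl fun i _ => h3 i, ← map_sum, ← map_one π]
    congr 1
    apply Subtype.ext
    show _ = (1 : HH (Fin m) H →L[ℂ] HH (Fin m) H)
    rw [← sum_mu (H := H) (ι := Fin m)]
    simp
  have hpid : π d = ∑ i, ∑ j, star (T i) * w' (X i j) * T j := by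
    have h3 : d = ∑ i, ∑ j, (⟨mu i i0, hmuD i i0⟩ : D) * ⟨dg (Fin m) (w (X i j)), hdgD _⟩ *
        ⟨mu i0 j, hmuD i0 j⟩ := by
      apply Subtype.ext
      show amp w (Fin m) X = _
      have h4 : amp w (Fin m) X = opMat fun i j => w (X i j) := rfl
      rw [h4, opMat_eq i0]
      simp
    rw [h3, map_sum]
    refine Finset.sum_congr rfl fun i _ => ?_
    rw [map_sum]
    refine Finset.sum_congr rfl fun j _ => ?_
    rw [map_mul, map_mul, hTstar, hw'def]
  have hpidn : ‖π d‖ ≤ ‖amp w' (Fin m) X‖ := by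
    refine ContinuousLinearMap.opNorm_le_bound _ (norm_nonneg _) fun y => ?_
    have h3 : π d y = ∑ i, star (T i)
        ((amp w' (Fin m) X (WithLp.toLp 2 (fun j => T j y) : HH (Fin m) K')) i) := by
      rw [hpid]
      simp only [_root_.sum_apply, mul_apply_eq_comp, amp_apply, map_sum]
    rw [h3]
    refine le_trans (row_norm T hTsum _) ?_
    refine le_trans (ContinuousLinearMap.le_opNorm _ _) ?_
    rw [col_norm T hTsum]
  have hdn : ‖d‖ ≤ ‖π d‖ := by
    have h3 := hvec d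
    rw [hψd] at h3
    have h4 : ‖π d Ω‖ ^ 2 = ‖d‖ ^ 2 := by exact_mod_cast h3
    have h5 : ‖π d Ω‖ = ‖d‖ := by
      have h6 := congrArg Real.sqrt h4
      rwa [Real.sqrt_sq (norm_nonneg _), Real.sqrt_sq (norm_nonneg _)] at h6
    have h7 : ‖Ω‖ = 1 := by
      have h6 := congrArg Real.sqrt hΩ1
      rwa [Real.sqrt_sq (norm_nonneg _), Real.sqrt_one] at h6
    rw [← h5]
    refine le_trans ((π d).le_opNorm _) ?_
    rw [h7, mul_one]
  have hdn' : ‖amp w (Fin m) X‖ = ‖d‖ := rfl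
  rw [hdn']
  exact le_trans hdn (le_trans hpidn hlvl)

end H759R2.Kad
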